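import Pool.Agent.V11219.TowMain

/-!
# Common rational forms of `l`-adic monodromy groups: products with semistable curves

Let `W` be a Weil cohomology theory with algebraically closed coefficients (`l`-adic cohomology with
coefficients in the algebraic closure of `ℚ_l`, which is singular cohomology with extended
coefficients) on a class of smooth proper varieties, and let `Γ` be a group which acts on the
cohomology of the varieties `X_i` and `Z` with the formal properties of the Galois group of a number
field `F` (`χ` is the action on the Tate twists).

Let `D₀` be **arbitrary** groups `D₀(A)` of cohomology classes, for the varieties `A`. Let `D = generated D₀` be
the smallest system of groups `D(A)` of classes which contain the `D₀(A)` and the classes of algebraic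
cycles and are stable under products, pull-backs and push-forwards. The statement
`TateIn χ (spanned D) A` says that the Tate classes of `A` (classes on which a subgroup of finite index of
`Γ` acts by a power of `χ`) are combinations of elements of `D(A)`.

Application: let `D₀(A)` be groups of classes in the singular cohomology with rational coefficients. Then
the groups `D(A)` are contained in the singular cohomology with rational coefficients and **do not
depend on** `l`. If the monodromy groups of an abelian variety `B` have a common `ℚ`-form `G` (for
all large `l`), let `D₀(B^m)` be the space of the invariants of `G` in the cohomology (with Tate twists) of
`B^m`, for all `m`, and `D₀(A) = 0` for the other `A`. Then the Tate classes of `Z = B^m` are spanned by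
`D₀(Z)`, and the theorem says that the Tate classes of all products `T` of `B^m` with powers of the `X_i`, and
of all the varieties which are dominated by them, are spanned by the elements of `D`, which are rational
and independent of `l` (they are Tate classes for all the `l` in question, as those of `D₀` and the
algebraic classes are). Therefore the reductive monodromy groups of the abelian varieties which are
quotients of products of `B^m` with Jacobians of the curves `X_i`, which are determined by their
invariants in the cohomology of the powers, also have a common `ℚ`-form, if the following
hypotheses (on the reduction of the curves `X_i`) are satisfied.

Let `X_i` be finitely many varieties of odd dimension for which numerical and homological equivalence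
coincide (for example curves), whose transcendental cohomology `T_i` (the orthogonal complement of the
algebraic classes) is concentrated in the middle degree and irreducible under all subgroups of finite
index of `Γ`. Assume:

* **(distinct)** for `i ≠ j` the representations `T_i` and `T_j` of `Γ` are not isomorphic up to scalars;
* **(small defects)** let `N` be the set of the `g ∈ Γ` with `χ(g) = 1` which act trivially on the
  cohomology of `Z` and with `(g - 1) ^ 2 = 0` on **all** `T_j`. For every `i` some `g ∈ N` has defects
  on `T_i` without a common prime factor, or the defect two; here the defects of `g` are the rank of
  `g - 1` on `T_i` and the multiplicities of the nonzero eigenvalues of `(g - 1) (g' - 1)` on `T_i`, for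
  `g' ∈ N`. (Or: the conjugates of some `g ∈ N` act irreducibly on `T_i` and the defects of all
  elements of `N` have no common prime factor.)

The elements of `N` are, for instance, the elements of the inertia groups at the places of `F`, not over
`l`, at which `Z` has good reduction and the `X_j` are curves with stable reduction; all `X_j` may have bad
reduction at the same places.

Let `T` be a product of `Z` with arbitrary powers of the `X_i`. Then the following are **equivalent**: the
Tate classes of all varieties dominated by `T` are spanned by elements of `D`; the Tate classes of `Z`
are spanned by elements of `D`. Nothing is assumed on `Z`.

Proof. The spaces spanned by the groups `D(A)` are a system of spaces of classes which contains the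
algebraic classes and is stable under products, pull-backs and push-forwards. By the theory of extremal
elements of Lie algebras (see `MP_0d42ed_ag.SemistableProducts`) and the first fundamental theorem a Tate
class on the product of a power of `X_i` with `A` is a combination of products of algebraic classes of
the power with Tate classes of `A`. If `x` is a Tate class of `B` and `g : T → B` is dominant, then `g^* x` is a
Tate class of `T`, and `x = g_*(a g^* x)` for an algebraic class `a`.
-/

universe u

namespace Pool.Agent.Results.MP_e965d0_ag.GeneratedClasses

open Pool.Agent.H914 Pool.Agent.H281R3.HT Pool.Agent.TH125.Gal Pool.Agent.V11219.Min
  Pool.Agent.V11219.Cls Pool.Agent.V11219.Dm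

/-- **Tate classes spanned by the elements of a generated system of groups of classes.** -/
theorem result {k : Type u} [Field k] {𝒱 : VarClass k} {ops : CycleOps 𝒱}
    (W : WeilCohomology.{u, 0} ops) [IsAlgClosed W.K] {Γ : Type} [Group Γ] (χ : CharOf W Γ)
    (D₀ : ClassGroups W) {ι : Type} [Finite ι] (X : ι → GVar W Γ) (Z : GVar W Γ)
    (h : Family χ X Z) (S : Set ι) (T : GVar W Γ) (hT : Tow X Z S T) :
    AllDominated χ (spanned (generated D₀)) T ↔ TateIn χ (spanned (generated D₀)) Z :=
  all_sst (groupSystem_generated D₀).classSystem h hT

end Pool.Agent.Results.MP_e965d0_ag.GeneratedClasses
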